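import Pool.Agent.W783.Perc.Stmts

/-! Product Bernoulli measures: conditioning and independence. -/

set_option autoImplicit false

open MeasureTheory Set

namespace Pool.Agent.W45.PC

open Pool.Agent.W783.PC

open scoped Classical in
/-- mix two configurations -/
noncomputable def gl {ι : Type} (J : Set ι) (x : (ι → Bool) × (ι → Bool)) : ι → Bool :=
  fun i => if i ∈ J then x.1 i else x.2 i

theorem gl_in {ι : Type} {J : Set ι} {x : (ι → Bool) × (ι → Bool)} {i : ι} (h : i ∈ J) :
    gl J x i = x.1 i := by unfold gl; rw [if_pos h]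

theorem gl_out {ι : Type} {J : Set ι} {x : (ι → Bool) × (ι → Bool)} {i : ι} (h : i ∉ J) :
    gl J x i = x.2 i := by unfold gl; rw [if_neg h]

theorem measurable_gl {ι : Type} (J : Set ι) : Measurable (gl J) := by
  rw [measurable_pi_iff]
  intro i
  by_cases h : i ∈ J
  · simp only [gl_in h]; fun_prop
  · simp only [gl_out h]; fun_prop

theorem map_gl {ι : Type} (r : ι → unitInterval) (J : Set ι) :
    ((pm r).prod (pm r)).map (gl J) = pm r := by
  classical
  conv_rhs => unfold pm
  apply Measure.eq_infinitePi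
  intro s t ht
  rw [Measure.map_apply (measurable_gl J) (MeasurableSet.pi s.countable_toSet fun i _ => ht i)]
  have h : gl J ⁻¹' (Set.pi (s : Set ι) t) =
      (Set.pi ((s.filter (· ∈ J) : Finset ι) : Set ι) t) ×ˢ
      (Set.pi ((s.filter (· ∉ J) : Finset ι) : Set ι) t) := by
    ext x
    simp only [mem_preimage, Set.mem_pi, Finset.mem_coe, mem_prod, Finset.mem_filter, and_imp]
    constructor
    · intro h
      refine ⟨fun i hi hJ => ?_, fun i hi hJ => ?_⟩
      · have := h i hi; rwa [gl_in hJ] at this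
      · have := h i hi; rwa [gl_out hJ] at this
    · rintro ⟨h1, h2⟩ i hi
      by_cases hJ : i ∈ J
      · rw [gl_in hJ]; exact h1 i hi hJ
      · rw [gl_out hJ]; exact h2 i hi hJ
  rw [h, Measure.prod_prod]
  unfold pm
  rw [Measure.infinitePi_pi _ (fun i _ => ht i), Measure.infinitePi_pi _ (fun i _ => ht i)]
  rw [← Finset.prod_filter_mul_prod_filter_not s (· ∈ J)]

theorem pm_gl {ι : Type} (r : ι → unitInterval) (J : Set ι) {A : Set (ι → Bool)}
    (hA : MeasurableSet A) : pm r A = ((pm r).prod (pm r)) (gl J ⁻¹' A) := by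
  conv_lhs => rw [← map_gl r J]
  rw [Measure.map_apply (measurable_gl J) hA]

theorem s_depmeas : S_depmeas := by
  intro ι F A hA
  classical
  have h : A = (fun (ω : ι → Bool) (i : F) => ω i) ⁻¹'
      ((fun (ω : ι → Bool) (i : F) => ω i) '' A) := by
    ext ω
    constructor
    · intro h; exact ⟨ω, h, rfl⟩
    · rintro ⟨ω', h1, h2⟩
      refine (hA ω' ω fun c hc => ?_).1 h1
      exact congrFun h2 ⟨c, hc⟩
  rw [h]
  have hm : Measurable (fun (ω : ι → Bool) (i : F) => ω i) := by fun_prop
  exact hm (Set.toFinite _).measurableSet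

theorem s_indep : S_indep := by
  intro ι r S T A B hA hB hST hAm hBm
  rw [pm_gl r S (hAm.inter hBm)]
  have h : gl S ⁻¹' (A ∩ B) = A ×ˢ B := by
    ext x
    simp only [mem_preimage, mem_inter_iff, mem_prod]
    refine and_congr ?_ ?_
    · exact hA _ _ fun i hi => gl_in hi
    · exact hB _ _ fun i hi => gl_out fun h => Set.disjoint_left.1 hST h hi
  rw [h, Measure.prod_prod]

theorem s_indepF : S_indepF := by
  intro ι r κ F
  classical
  induction F using Finset.induction_on with
  | empty =>
    intro S A _ _ _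
    simp
  | insert k F hk ih =>
    intro S A h1 h2 h3
    have hi := ih S A (fun l hl => h1 l (Finset.mem_insert_of_mem hl))
      (fun l hl l' hl' => h2 l (Finset.mem_insert_of_mem hl) l' (Finset.mem_insert_of_mem hl'))
      (fun l hl => h3 l (Finset.mem_insert_of_mem hl))
    have e1 : (⋂ l ∈ insert k F, A l) = A k ∩ ⋂ l ∈ F, A l := by
      rw [Finset.set_biInter_insert]
    rw [e1, Finset.prod_insert hk, ← hi]
    apply s_indep ι r (S k) (⋃ l ∈ F, S l) _ _ (h1 k (Finset.mem_insert_self k F)) _ _
      (h3 k (Finset.mem_insert_self k F))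
    · exact Finset.measurableSet_biInter F fun l hl => h3 l (Finset.mem_insert_of_mem hl)
    · intro ω ω' h
      simp only [mem_iInter]
      refine forall_congr' fun l => forall_congr' fun hl => ?_
      exact h1 l (Finset.mem_insert_of_mem hl) ω ω' fun c hc => h c (mem_biUnion hl hc)
    · rw [Set.disjoint_iUnion₂_right]
      intro l hl
      refine h2 k (Finset.mem_insert_self k F) l (Finset.mem_insert_of_mem hl) ?_
      rintro rfl
      exact hk hl

theorem s_glue : S_glue := by
  intro ι r S E h1 h2 h3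
  classical
  have hm : MeasurableSet {ω : ι → Bool | ω ∈ E ω} := by
    have e : {ω : ι → Bool | ω ∈ E ω} = ⋃ η : S → Bool,
        ({ω | ∀ c : S, ω c = η c} ∩ E (fun c => if h : c ∈ S then η ⟨c, h⟩ else false)) := by
      ext ω
      simp only [mem_ofPred_eq, mem_iUnion, mem_inter_iff]
      constructor
      · intro h
        refine ⟨fun c => ω c, fun c => rfl, ?_⟩
        rw [h1 _ ω]
        · exact h
        · intro c hc
          rw [dif_pos hc]
      · rintro ⟨η, h4, h5⟩
        rw [h1 ω (fun c => if h : c ∈ S then η ⟨c, h⟩ else false)]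
        · exact h5
        · intro c hc
          rw [dif_pos hc]
          exact h4 ⟨c, hc⟩
    rw [e]
    refine MeasurableSet.iUnion fun η => MeasurableSet.inter ?_ (h3 _)
    have : {ω : ι → Bool | ∀ c : S, ω c = η c} = ⋂ c : S, (fun ω : ι → Bool => ω c) ⁻¹' {η c} := by
      ext ω
      simp
    rw [this]
    exact MeasurableSet.iInter fun c => (measurable_pi_apply (c : ι)) (MeasurableSet.singleton _)
  refine ⟨hm, ?_⟩
  rw [pm_gl r (S : Set ι) hm, Measure.prod_apply (measurable_gl (S : Set ι) hm)]
  apply lintegral_congr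
  intro ω
  congr 1
  ext ω'
  have e1 : E (gl (S : Set ι) (ω, ω')) = E ω := h1 _ _ fun c hc => gl_in (by exact hc)
  have e2 : gl (S : Set ι) (ω, ω') ∈ E ω ↔ ω' ∈ E ω := h2 ω _ _ fun c hc => gl_out (by exact hc)
  rw [← e2, ← e1]
  rfl

theorem bern_true (q : unitInterval) : bern q {true} = ENNReal.ofReal (q : ℝ) := by
  unfold bern
  simp

theorem bern_false (q : unitInterval) : bern q {false} = ENNReal.ofReal (1 - (q : ℝ)) := by
  unfold bern
  simp

theorem pm_true {ι : Type} (r : ι → unitInterval) (F : Finset ι) :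
    pm r {ω | ∀ c ∈ F, ω c = true} = ∏ c ∈ F, ENNReal.ofReal (r c : ℝ) := by
  have : {ω : ι → Bool | ∀ c ∈ F, ω c = true} = Set.pi (F : Set ι) fun _ => {true} := by
    ext ω
    simp
  rw [this]
  unfold pm
  rw [Measure.infinitePi_pi _ fun _ _ => MeasurableSet.singleton _]
  simp only [bern_true]

theorem s_open : S_open := by
  intro ι r F A hA hAm
  classical
  have hOm : MeasurableSet {ω : ι → Bool | ∀ c ∈ F, ω c = true} := by
    apply s_depmeas ι F
    intro ω ω' h
    constructor
    · intro h1 c hc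
      rw [← h c hc]; exact h1 c hc
    · intro h1 c hc
      rw [h c hc]; exact h1 c hc
  have key : pm r {ω | ∀ c ∈ F, ω c = true} * pm r A ≤
      pm r (A ∩ {ω | ∀ c ∈ F, ω c = true}) := by
    rw [pm_gl r (F : Set ι) (hAm.inter hOm), ← Measure.prod_prod]
    apply measure_mono
    rintro ⟨ω, ω'⟩ ⟨h1, h2⟩
    constructor
    · refine hA ω' _ (fun c hc => ?_) h2
      by_cases hcF : c ∈ (F : Set ι)
      · rw [gl_in hcF]; exact h1 c hcF
      · rw [gl_out hcF]; exact hc
    · intro c hc
      have hcF : c ∈ (F : Set ι) := hc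
      rw [gl_in hcF]
      exact h1 c hc
  have h := ENNReal.toReal_mono (measure_ne_top _ _) key
  rw [ENNReal.toReal_mul, pm_true, ENNReal.toReal_prod] at h
  have e : ∏ c ∈ F, (ENNReal.ofReal (r c : ℝ)).toReal = ∏ c ∈ F, (r c : ℝ) :=
    Finset.prod_congr rfl fun c _ => ENNReal.toReal_ofReal (r c).2.1
  rw [e] at h
  exact h

end Pool.Agent.W45.PC
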